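import Pool.Agent.H75.EM.L11

/-!
# MP_75c0be_nt: the Erdos-Kac law for integer parts of real polynomials

For every real polynomial `f` with an irrational coefficient of positive degree, the number of distinct
prime divisors of `⌊f(n)⌋`, for `n` uniform in `{1, ..., N}`, satisfies the central limit theorem with
mean and variance `log log N`.
-/

open Polynomial

namespace Pool.Agent.Results.MP_75c0be_nt.ErdosKac

open Classical in
/-- `n` is uniform in `{1, ..., N}`; `m.natAbs.primeFactors.card` is the number `ω(m)` of distinct primes
dividing `m` (and `0` for `m = 0`); the limit is the standard normal distribution function at `t`. -/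
theorem result (f : ℝ[X]) (hf : ∃ j, 1 ≤ j ∧ Irrational (f.coeff j)) (t : ℝ) :
    Filter.Tendsto
      (fun N : ℕ => (((Finset.Icc 1 N).filter (fun n : ℕ =>
        ((⌊f.eval (n : ℝ)⌋.natAbs.primeFactors.card : ℝ) - Real.log (Real.log N)) /
          Real.sqrt (Real.log (Real.log N)) ≤ t)).card : ℝ) / N)
      Filter.atTop
      (nhds ((ProbabilityTheory.gaussianReal 0 1).real (Set.Iic t))) :=
  EK75.main_theorem f hf t

end Pool.Agent.Results.MP_75c0be_nt.ErdosKac
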